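import Pool.Agent.Q99.NP.Space

/-!
# The renormed `l1` is locally uniformly convex and has a closed hyperplane without nearest points
-/

set_option autoImplicit false

open Filter Topology
open scoped ENNReal

namespace Q99.NP

theorem tendsto_of_sum_two (x : E) (hx : ‖x‖ = 1) (y : ℕ → E) (hy : ∀ n, ‖y n‖ = 1)
    (h : Tendsto (fun n => ‖x + y n‖) atTop (𝓝 2)) : Tendsto (fun n => ‖x - y n‖) atTop (𝓝 0) := by
  have hS : Tendsto (fun n => 4 - ‖x + y n‖ ^ 2) atTop (𝓝 0) := by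
    have := (tendsto_const_nhds (x := (4 : ℝ))).sub (h.pow 2)
    have e : (4 : ℝ) - 2 ^ 2 = 0 := by norm_num
    rwa [e] at this
  set a : ℝ := ‖(x : WithLp 2 (L1 × L2)).fst‖ with ha
  set b : ℝ := ‖(x : WithLp 2 (L1 × L2)).snd‖ with hb
  have hab : a ^ 2 + b ^ 2 = 1 := by
    rw [ha, hb, ← norm_sq, hx]; norm_num
  have key : ∀ n, (a - ‖(y n : WithLp 2 (L1 × L2)).fst‖) ^ 2 ≤ 4 - ‖x + y n‖ ^ 2 ∧
      ‖(x : WithLp 2 (L1 × L2)).snd - (y n : WithLp 2 (L1 × L2)).snd‖ ^ 2 ≤ 4 - ‖x + y n‖ ^ 2 := by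
    intro n
    have h1 := norm_sq (x + y n)
    have h2 := norm_sq (y n)
    rw [hy n] at h2
    have h3 : ‖((x + y n : E) : WithLp 2 (L1 × L2)).fst‖ ≤ a + ‖(y n : WithLp 2 (L1 × L2)).fst‖ :=
      norm_add_le _ _
    have h4 : ‖((x + y n : E) : WithLp 2 (L1 × L2)).snd‖ ≤ b + ‖(y n : WithLp 2 (L1 × L2)).snd‖ :=
      norm_add_le _ _
    have h5 := parallelogram_law_with_norm ℝ ((x : WithLp 2 (L1 × L2)).snd) ((y n : WithLp 2 (L1 × L2)).snd)
    have h6 : ‖((x + y n : E) : WithLp 2 (L1 × L2)).snd‖ =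
      ‖(x : WithLp 2 (L1 × L2)).snd + (y n : WithLp 2 (L1 × L2)).snd‖ := rfl
    rw [h6] at h1 h4
    have n1 := norm_nonneg ((x + y n : E) : WithLp 2 (L1 × L2)).fst
    have n2 := norm_nonneg ((x : WithLp 2 (L1 × L2)).snd + (y n : WithLp 2 (L1 × L2)).snd)
    have n3 := norm_nonneg (y n : WithLp 2 (L1 × L2)).fst
    have n4 := norm_nonneg (y n : WithLp 2 (L1 × L2)).snd
    have n5 : 0 ≤ a := norm_nonneg _
    have n6 : 0 ≤ b := norm_nonneg _
    have q1 : ‖((x + y n : E) : WithLp 2 (L1 × L2)).fst‖ ^ 2 ≤ (a + ‖(y n : WithLp 2 (L1 × L2)).fst‖) ^ 2 :=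
      pow_le_pow_left₀ n1 h3 2
    have q2 : ‖(x : WithLp 2 (L1 × L2)).snd + (y n : WithLp 2 (L1 × L2)).snd‖ ^ 2 ≤
        (b + ‖(y n : WithLp 2 (L1 × L2)).snd‖) ^ 2 := pow_le_pow_left₀ n2 h4 2
    rw [h1]
    constructor
    · nlinarith [sq_nonneg (b - ‖(y n : WithLp 2 (L1 × L2)).snd‖)]
    · nlinarith [sq_nonneg (a - ‖(y n : WithLp 2 (L1 × L2)).fst‖)]
  have hsq : Tendsto (fun n => Real.sqrt (4 - ‖x + y n‖ ^ 2)) atTop (𝓝 0) := by
    have := (Real.continuous_sqrt.tendsto 0).comp hS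
    rwa [Real.sqrt_zero] at this
  have hfst : Tendsto (fun n => ‖(y n : WithLp 2 (L1 × L2)).fst‖) atTop (𝓝 a) := by
    rw [tendsto_iff_dist_tendsto_zero]
    refine squeeze_zero (fun _ => dist_nonneg) (fun n => ?_) hsq
    rw [dist_comm, Real.dist_eq]
    exact Real.abs_le_sqrt (key n).1
  have hsnd : Tendsto (fun n => ‖(x : WithLp 2 (L1 × L2)).snd - (y n : WithLp 2 (L1 × L2)).snd‖) atTop (𝓝 0) := by
    refine squeeze_zero (fun _ => norm_nonneg _) (fun n => ?_) hsq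
    exact Real.le_sqrt_of_sq_le (key n).2
  have hc : ∀ k, Tendsto (fun n => ((y n : WithLp 2 (L1 × L2)).fst : ∀ _ : ℕ, ℝ) k) atTop
      (𝓝 (((x : WithLp 2 (L1 × L2)).fst : ∀ _ : ℕ, ℝ) k)) := by
    intro k
    rw [tendsto_iff_dist_tendsto_zero]
    have h1 : Tendsto (fun n => (w k)⁻¹ *
        ‖(x : WithLp 2 (L1 × L2)).snd - (y n : WithLp 2 (L1 × L2)).snd‖) atTop (𝓝 0) := by
      simpa using hsnd.const_mul (w k)⁻¹
    refine squeeze_zero (fun _ => dist_nonneg) (fun n => ?_) h1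
    rw [dist_comm, Real.dist_eq]
    have h2 := coord_l2 ((x : WithLp 2 (L1 × L2)).snd - (y n : WithLp 2 (L1 × L2)).snd) k
    have h3 : (((x : WithLp 2 (L1 × L2)).snd - (y n : WithLp 2 (L1 × L2)).snd : L2) : ∀ _ : ℕ, ℝ) k =
        w k * (((x : WithLp 2 (L1 × L2)).fst : ∀ _ : ℕ, ℝ) k - ((y n : WithLp 2 (L1 × L2)).fst : ∀ _ : ℕ, ℝ) k) := by
      have e1 : c2 k (x : WithLp 2 (L1 × L2)) = w k * c1 k (x : WithLp 2 (L1 × L2)) := x.2 k
      have e2 : c2 k (y n : WithLp 2 (L1 × L2)) = w k * c1 k (y n : WithLp 2 (L1 × L2)) := (y n).2 k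
      rw [c1_apply, c2_apply] at e1 e2
      rw [mul_sub, ← e1, ← e2]
      rfl
    rw [h3, abs_mul, abs_of_pos (w_pos k)] at h2
    rw [← div_eq_inv_mul, le_div_iff₀ (w_pos k)]
    linarith
  have h1 := riesz (x : WithLp 2 (L1 × L2)).fst (fun n => (y n : WithLp 2 (L1 × L2)).fst) hc hfst
  have h2 : Tendsto (fun n => ‖x - y n‖ ^ 2) atTop (𝓝 0) := by
    have : Tendsto (fun n => ‖(x : WithLp 2 (L1 × L2)).fst - (y n : WithLp 2 (L1 × L2)).fst‖ ^ 2 +
      ‖(x : WithLp 2 (L1 × L2)).snd - (y n : WithLp 2 (L1 × L2)).snd‖ ^ 2) atTop (𝓝 (0 ^ 2 + 0 ^ 2)) :=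
      (h1.pow 2).add (hsnd.pow 2)
    have e : (0 : ℝ) ^ 2 + 0 ^ 2 = 0 := by norm_num
    rw [e] at this
    refine this.congr fun n => ?_
    rw [norm_sq (x - y n)]
    rfl
  have h3 := (Real.continuous_sqrt.tendsto 0).comp h2
  rw [Real.sqrt_zero] at h3
  refine h3.congr fun n => ?_
  show Real.sqrt (‖x - y n‖ ^ 2) = _
  exact Real.sqrt_sq (norm_nonneg _)

/-- local uniform convexity -/
theorem luc (x : E) (hx : ‖x‖ = 1) (ε : ℝ) (hε : 0 < ε) : ∃ δ : ℝ, 0 < δ ∧
    ∀ y : E, ‖y‖ = 1 → ε ≤ ‖x - y‖ → ‖x + y‖ ≤ 2 - 2 * δ := by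
  by_contra hcon
  push Not at hcon
  have h1 : ∀ n : ℕ, ∃ y : E, ‖y‖ = 1 ∧ ε ≤ ‖x - y‖ ∧ 2 - 2 * (1 / ((n : ℝ) + 1)) < ‖x + y‖ :=
    fun n => hcon _ (by positivity)
  choose y hy1 hy2 hy3 using h1
  have h2 : Tendsto (fun n => ‖x + y n‖) atTop (𝓝 2) := by
    have h3 : Tendsto (fun n : ℕ => 2 - 2 * (1 / ((n : ℝ) + 1))) atTop (𝓝 2) := by
      have := (tendsto_const_nhds (x := (2 : ℝ))).sub (tendsto_one_div_add_atTop_nhds_zero_nat.const_mul 2)
      simpa using this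
    refine tendsto_of_tendsto_of_tendsto_of_le_of_le h3 tendsto_const_nhds (fun n => (hy3 n).le) (fun n => ?_)
    have := norm_add_le x (y n)
    rw [hx, hy1 n] at this
    linarith
  have h3 := tendsto_of_sum_two x hx y hy1 h2
  have h4 := h3.eventually (gt_mem_nhds hε)
  obtain ⟨n, hn⟩ := h4.exists
  exact absurd (hy2 n) (not_le.2 hn)

/-- the coefficients of the functional -/
noncomputable def co (k : ℕ) : ℝ := 1 - 1 / ((k : ℝ) + 2)

theorem co_pos (k : ℕ) : 0 < co k := by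
  unfold co
  rw [sub_pos, div_lt_one (by positivity)]
  have : (0 : ℝ) ≤ k := Nat.cast_nonneg k
  linarith

theorem co_lt (k : ℕ) : co k < 1 := by
  unfold co
  have : (0 : ℝ) < 1 / ((k : ℝ) + 2) := by positivity
  linarith

theorem co_tendsto : Tendsto co atTop (𝓝 1) := by
  have h : Tendsto (fun k : ℕ => 1 / ((k : ℝ) + 2)) atTop (𝓝 0) := by
    have := (tendsto_add_atTop_iff_nat 1).2 (tendsto_one_div_add_atTop_nhds_zero_nat (𝕜 := ℝ))
    refine this.congr fun n => ?_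
    push_cast
    ring
  have h2 := (tendsto_const_nhds (x := (1 : ℝ))).sub h
  rw [sub_zero] at h2
  exact h2

theorem summable_co (u : L1) : Summable fun k => co k * (u : ∀ _ : ℕ, ℝ) k := by
  refine Summable.of_norm_bounded (norm_l1 u).summable fun k => ?_
  rw [norm_mul, Real.norm_eq_abs, Real.norm_eq_abs, abs_of_pos (co_pos k)]
  exact mul_le_of_le_one_left (abs_nonneg _) (co_lt k).le

/-- the functional on `l1` -/
noncomputable def F1 : L1 →L[ℝ] ℝ :=
  LinearMap.mkContinuous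
    { toFun := fun u => ∑' k, co k * (u : ∀ _ : ℕ, ℝ) k
      map_add' := fun u v => by
        rw [← (summable_co u).tsum_add (summable_co v)]
        refine tsum_congr fun k => ?_
        have : ((u + v : L1) : ∀ _ : ℕ, ℝ) k = (u : ∀ _ : ℕ, ℝ) k + (v : ∀ _ : ℕ, ℝ) k := rfl
        rw [this]; ring
      map_smul' := fun c u => by
        rw [RingHom.id_apply, smul_eq_mul, ← tsum_mul_left]
        refine tsum_congr fun k => ?_
        have : ((c • u : L1) : ∀ _ : ℕ, ℝ) k = c * (u : ∀ _ : ℕ, ℝ) k := rfl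
        rw [this]; ring } 1 (fun u => by
      rw [one_mul]
      show ‖∑' k, co k * (u : ∀ _ : ℕ, ℝ) k‖ ≤ ‖u‖
      rw [← (norm_l1 u).tsum_eq]
      refine (norm_tsum_le_tsum_norm ?_).trans ?_
      · refine Summable.of_nonneg_of_le (fun _ => norm_nonneg _) (fun k => ?_) (norm_l1 u).summable
        rw [norm_mul, Real.norm_eq_abs, Real.norm_eq_abs, abs_of_pos (co_pos k)]
        exact mul_le_of_le_one_left (abs_nonneg _) (co_lt k).le
      · refine Summable.tsum_le_tsum (fun k => ?_) ?_ (norm_l1 u).summable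
        · rw [norm_mul, Real.norm_eq_abs, Real.norm_eq_abs, abs_of_pos (co_pos k)]
          exact mul_le_of_le_one_left (abs_nonneg _) (co_lt k).le
        · refine Summable.of_nonneg_of_le (fun _ => norm_nonneg _) (fun k => ?_) (norm_l1 u).summable
          rw [norm_mul, Real.norm_eq_abs, Real.norm_eq_abs, abs_of_pos (co_pos k)]
          exact mul_le_of_le_one_left (abs_nonneg _) (co_lt k).le)

theorem F1_apply (u : L1) : F1 u = ∑' k, co k * (u : ∀ _ : ℕ, ℝ) k := rfl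

/-- the functional does not attain its norm -/
theorem F1_lt (u : L1) (hu : u ≠ 0) : |F1 u| < ‖u‖ := by
  obtain ⟨j, hj⟩ : ∃ j, (u : ∀ _ : ℕ, ℝ) j ≠ 0 := by
    by_contra h
    push Not at h
    exact hu (lp.ext (funext h))
  have hs : Summable fun k => ‖co k * (u : ∀ _ : ℕ, ℝ) k‖ := by
    refine Summable.of_nonneg_of_le (fun _ => norm_nonneg _) (fun k => ?_) (norm_l1 u).summable
    rw [norm_mul, Real.norm_eq_abs, Real.norm_eq_abs, abs_of_pos (co_pos k)]
    exact mul_le_of_le_one_left (abs_nonneg _) (co_lt k).le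
  rw [F1_apply, ← Real.norm_eq_abs, ← (norm_l1 u).tsum_eq]
  refine (norm_tsum_le_tsum_norm hs).trans_lt ?_
  refine Summable.tsum_lt_tsum (i := j) (fun k => ?_) ?_ hs (norm_l1 u).summable
  · rw [norm_mul, Real.norm_eq_abs, Real.norm_eq_abs, abs_of_pos (co_pos k)]
    exact mul_le_of_le_one_left (abs_nonneg _) (co_lt k).le
  · rw [norm_mul, Real.norm_eq_abs, Real.norm_eq_abs, abs_of_pos (co_pos j)]
    exact mul_lt_of_lt_one_left (abs_pos.2 hj) (co_lt j)

/-- the functional on the renormed space -/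
noncomputable def F : E →L[ℝ] ℝ :=
  F1.comp (((ContinuousLinearMap.fst ℝ L1 L2).comp
    (WithLp.prodContinuousLinearEquiv 2 ℝ L1 L2).toContinuousLinearMap).comp E.subtypeL)

theorem F_apply (x : E) : F x = F1 (x : WithLp 2 (L1 × L2)).fst := rfl

/-- the unit vectors -/
noncomputable def e (k : ℕ) : E :=
  ⟨WithLp.toLp 2 (lp.single 1 k (1 : ℝ), lp.single 2 k (w k)), by
    intro j
    rw [c1_apply, c2_apply]
    show (lp.single 2 k (w k) : L2) j = w j * (lp.single 1 k (1 : ℝ) : L1) j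
    by_cases h : j = k
    · subst h
      rw [lp.single_apply_self, lp.single_apply_self, mul_one]
    · rw [lp.single_apply_ne _ _ _ h, lp.single_apply_ne _ _ _ h, mul_zero]⟩

theorem norm_e (k : ℕ) : ‖e k‖ ^ 2 = 1 + w k ^ 2 := by
  rw [norm_sq]
  have h1 : ‖((e k : E) : WithLp 2 (L1 × L2)).fst‖ = 1 := by
    show ‖(lp.single 1 k (1 : ℝ) : L1)‖ = 1
    rw [lp.norm_single (by norm_num)]
    norm_num
  have h2 : ‖((e k : E) : WithLp 2 (L1 × L2)).snd‖ = w k := by
    show ‖(lp.single 2 k (w k) : L2)‖ = w k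
    rw [lp.norm_single (by norm_num), Real.norm_eq_abs, abs_of_pos (w_pos k)]
  rw [h1, h2]
  norm_num

theorem F_e (k : ℕ) : F (e k) = co k := by
  rw [F_apply, F1_apply]
  rw [tsum_eq_single k]
  · show co k * (lp.single 1 k (1 : ℝ) : L1) k = co k
    rw [lp.single_apply_self, mul_one]
  · intro j hj
    show co j * (lp.single 1 k (1 : ℝ) : L1) j = 0
    rw [lp.single_apply_ne _ _ _ hj, mul_zero]

theorem abs_F_lt (x : E) (hx : x ≠ 0) : |F x| < ‖x‖ := by
  have h1 : ‖(x : WithLp 2 (L1 × L2)).fst‖ ≤ ‖x‖ := by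
    have := norm_sq x
    have h2 := norm_nonneg x
    have h3 := sq_nonneg ‖(x : WithLp 2 (L1 × L2)).snd‖
    exact abs_le_of_sq_le_sq' (by linarith) h2 |>.2
  refine lt_of_lt_of_le ?_ h1
  rw [F_apply]
  apply F1_lt
  intro h
  apply hx
  apply Subtype.ext
  have h4 : (x : WithLp 2 (L1 × L2)).snd = 0 := by
    apply lp.ext
    funext k
    have := x.2 k
    rw [c1_apply, c2_apply, h] at this
    rw [this]
    show w k * 0 = 0
    rw [mul_zero]
  have h5 : (x : WithLp 2 (L1 × L2)) = WithLp.toLp 2 ((x : WithLp 2 (L1 × L2)).fst, (x : WithLp 2 (L1 × L2)).snd) := rfl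
  rw [h5, h, h4]
  rfl

theorem infDist_le (x : E) : Metric.infDist x {g : E | F g = 0} ≤ |F x| := by
  have hlim : Tendsto (fun k => |F x| / co k * Real.sqrt (1 + w k ^ 2)) atTop (𝓝 |F x|) := by
    have hw : Tendsto w atTop (𝓝 0) := tendsto_pow_atTop_nhds_zero_of_lt_one (by norm_num) (by norm_num)
    have h1 : Tendsto (fun k => Real.sqrt (1 + w k ^ 2)) atTop (𝓝 (Real.sqrt (1 + 0 ^ 2))) :=
      (Real.continuous_sqrt.tendsto _).comp (tendsto_const_nhds.add (hw.pow 2))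
    have h2 : Tendsto (fun k => |F x| / co k) atTop (𝓝 (|F x| / 1)) :=
      tendsto_const_nhds.div co_tendsto one_ne_zero
    have := h2.mul h1
    simpa using this
  refine ge_of_tendsto hlim (Eventually.of_forall fun k => ?_)
  have hg : x - (F x / co k) • e k ∈ {g : E | F g = 0} := by
    show F (x - (F x / co k) • e k) = 0
    rw [map_sub, map_smul, F_e, smul_eq_mul, div_mul_cancel₀ _ (co_pos k).ne', sub_self]
  refine (Metric.infDist_le_dist_of_mem hg).trans (le_of_eq ?_)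
  rw [dist_eq_norm, sub_sub_cancel, norm_smul, Real.norm_eq_abs, abs_div, abs_of_pos (co_pos k)]
  congr 1
  rw [← norm_e, Real.sqrt_sq (norm_nonneg _)]

theorem meagre : IsMeagre {x : E | ∃! y : E, y ∈ {g : E | F g = 0} ∧
    dist x y = Metric.infDist x {g : E | F g = 0}} := by
  have hcl : IsClosed {g : E | F g = 0} := isClosed_eq F.continuous continuous_const
  have hsub : {x : E | ∃! y : E, y ∈ {g : E | F g = 0} ∧
      dist x y = Metric.infDist x {g : E | F g = 0}} ⊆ {g : E | F g = 0} := by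
    rintro x ⟨y, ⟨hy1, hy2⟩, -⟩
    by_contra hx
    have hne : x - y ≠ 0 := by
      intro h
      rw [sub_eq_zero] at h
      exact hx (h ▸ hy1)
    have h1 := abs_F_lt (x - y) hne
    have h2 : F (x - y) = F x := by
      have : F y = 0 := hy1
      rw [map_sub, this, sub_zero]
    rw [h2, ← dist_eq_norm, hy2] at h1
    exact absurd (infDist_le x) (not_le.2 h1)
  have hnd : IsNowhereDense {g : E | F g = 0} := by
    rw [hcl.isNowhereDense_iff]
    rw [Set.eq_empty_iff_forall_notMem]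
    intro g hg
    have h1 : F g = 0 := (interior_subset : interior {g : E | F g = 0} ⊆ {g : E | F g = 0}) hg
    have h2 : Tendsto (fun t : ℝ => g + t • e 0) (𝓝[≠] 0) (𝓝 g) := by
      have : Tendsto (fun t : ℝ => g + t • e 0) (𝓝 0) (𝓝 (g + (0 : ℝ) • e 0)) :=
        (continuous_const.add (continuous_id.smul continuous_const)).tendsto 0
      rw [zero_smul, add_zero] at this
      exact this.mono_left nhdsWithin_le_nhds
    have h3 := h2.eventually (isOpen_interior.mem_nhds hg)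
    have h4 : ∀ᶠ t : ℝ in 𝓝[≠] 0, t ≠ 0 := self_mem_nhdsWithin
    obtain ⟨t, ht1, ht2⟩ := (h3.and h4).exists
    have h5 : F (g + t • e 0) = 0 := (interior_subset : interior {g : E | F g = 0} ⊆ {g : E | F g = 0}) ht1
    rw [map_add, h1, map_smul, F_e, zero_add, smul_eq_mul] at h5
    rcases mul_eq_zero.1 h5 with h6 | h6
    · exact ht2 h6
    · exact (co_pos 0).ne' h6
  exact (hnd.isMeagre).mono hsub

end Q99.NP
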