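import Mathlib

/-!
# A locally uniformly convex equivalent norm on `l1` with a non-proximinal hyperplane

`E` is the space of pairs `(x, y)` in `l1 x l2` (with the Hilbertian sum norm) such that `y k = 2^(-k) x k`, that is
`l1` with the norm `(|x|_1^2 + sum 4^(-k) x_k^2)^(1/2)`.
-/

set_option autoImplicit false

open Filter Topology
open scoped ENNReal

namespace Q99.NP

/-- the space `l1` -/
abbrev L1 := lp (fun _ : ℕ => ℝ) 1

/-- the space `l2` -/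
abbrev L2 := lp (fun _ : ℕ => ℝ) 2

/-- the weight `2^(-k)` -/
noncomputable def w (k : ℕ) : ℝ := (1 / 2) ^ k

theorem w_pos (k : ℕ) : 0 < w k := by unfold w; positivity

theorem w_le (k : ℕ) : w k ≤ 1 := pow_le_one₀ (by norm_num) (by norm_num)

/-- coordinate on the first factor -/
noncomputable def c1 (k : ℕ) : WithLp 2 (L1 × L2) →L[ℝ] ℝ :=
  (lp.evalCLM ℝ (fun _ : ℕ => ℝ) 1 k).comp
    ((ContinuousLinearMap.fst ℝ L1 L2).comp (WithLp.prodContinuousLinearEquiv 2 ℝ L1 L2).toContinuousLinearMap)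

/-- coordinate on the second factor -/
noncomputable def c2 (k : ℕ) : WithLp 2 (L1 × L2) →L[ℝ] ℝ :=
  (lp.evalCLM ℝ (fun _ : ℕ => ℝ) 2 k).comp
    ((ContinuousLinearMap.snd ℝ L1 L2).comp (WithLp.prodContinuousLinearEquiv 2 ℝ L1 L2).toContinuousLinearMap)

theorem c1_apply (k : ℕ) (p : WithLp 2 (L1 × L2)) : c1 k p = (p.fst : ∀ _ : ℕ, ℝ) k := rfl

theorem c2_apply (k : ℕ) (p : WithLp 2 (L1 × L2)) : c2 k p = (p.snd : ∀ _ : ℕ, ℝ) k := rfl

/-- the renormed space -/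
noncomputable def E : Submodule ℝ (WithLp 2 (L1 × L2)) where
  carrier := {p | ∀ k, c2 k p = w k * c1 k p}
  add_mem' := by
    intro a b ha hb k
    rw [map_add, map_add, ha k, hb k]
    ring
  zero_mem' := by
    intro k
    rw [map_zero, map_zero, mul_zero]
  smul_mem' := by
    intro c a ha k
    rw [map_smul, map_smul, ha k, smul_eq_mul, smul_eq_mul]
    ring

theorem isClosed_E : IsClosed (E : Set (WithLp 2 (L1 × L2))) := by
  have : (E : Set (WithLp 2 (L1 × L2))) = ⋂ k, {p | c2 k p = w k * c1 k p} := by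
    ext p
    simp only [Set.mem_iInter, Set.mem_ofPred_eq]
    rfl
  rw [this]
  exact isClosed_iInter fun k => isClosed_eq (c2 k).continuous ((c1 k).continuous.const_mul _)

instance : CompleteSpace E := isClosed_E.completeSpace_coe

theorem norm_sq (x : E) : ‖x‖ ^ 2 = ‖(x : WithLp 2 (L1 × L2)).fst‖ ^ 2 + ‖(x : WithLp 2 (L1 × L2)).snd‖ ^ 2 :=
  WithLp.prod_norm_sq_eq_of_L2 _

theorem norm_l1 (u : L1) : HasSum (fun k => |(u : ∀ _ : ℕ, ℝ) k|) ‖u‖ := by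
  have h := lp.hasSum_norm (p := 1) (by norm_num) u
  simpa using h

theorem coord_l1 (u : L1) (k : ℕ) : |(u : ∀ _ : ℕ, ℝ) k| ≤ ‖u‖ := by
  have := lp.norm_apply_le_norm (p := 1) (by norm_num) u k
  simpa using this

theorem coord_l2 (u : L2) (k : ℕ) : |(u : ∀ _ : ℕ, ℝ) k| ≤ ‖u‖ := by
  have := lp.norm_apply_le_norm (p := 2) (by norm_num) u k
  simpa using this

/-- coordinatewise convergence and convergence of the norms imply convergence in `l1` -/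
theorem riesz (x : L1) (y : ℕ → L1) (h : ∀ k, Tendsto (fun n => (y n : ∀ _ : ℕ, ℝ) k) atTop (𝓝 ((x : ∀ _ : ℕ, ℝ) k)))
    (hn : Tendsto (fun n => ‖y n‖) atTop (𝓝 ‖x‖)) : Tendsto (fun n => ‖x - y n‖) atTop (𝓝 0) := by
  rw [Metric.tendsto_atTop]
  intro ε hε
  have hx := norm_l1 x
  obtain ⟨N, hN⟩ : ∃ N : ℕ, ‖x‖ - ε / 8 < ∑ k ∈ Finset.range N, |(x : ∀ _ : ℕ, ℝ) k| := by
    have h1 := hx.tendsto_sum_nat
    have h2 := h1.eventually (lt_mem_nhds (show ‖x‖ - ε / 8 < ‖x‖ by linarith))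
    exact h2.exists
  have h3 : Tendsto (fun n => ∑ k ∈ Finset.range N, |(x : ∀ _ : ℕ, ℝ) k - (y n : ∀ _ : ℕ, ℝ) k|) atTop (𝓝 0) := by
    have : Tendsto (fun n => ∑ k ∈ Finset.range N, |(x : ∀ _ : ℕ, ℝ) k - (y n : ∀ _ : ℕ, ℝ) k|) atTop
        (𝓝 (∑ k ∈ Finset.range N, |(x : ∀ _ : ℕ, ℝ) k - (x : ∀ _ : ℕ, ℝ) k|)) :=
      tendsto_finsetSum _ fun k _ => ((tendsto_const_nhds.sub (h k)).abs)
    simpa using this
  have h4 := h3.eventually (gt_mem_nhds (show (0 : ℝ) < ε / 8 by linarith))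
  have h5 := hn.eventually (gt_mem_nhds (show ‖x‖ < ‖x‖ + ε / 8 by linarith))
  obtain ⟨n0, hn0⟩ := eventually_atTop.1 (h4.and h5)
  refine ⟨n0, fun n hge => ?_⟩
  obtain ⟨h6, h7⟩ := hn0 n hge
  rw [Real.dist_eq, sub_zero, abs_of_nonneg (norm_nonneg _)]
  have hd := norm_l1 (x - y n)
  have hy := norm_l1 (y n)
  have hle : ‖x - y n‖ ≤ 3 * (ε / 8) + 2 * (ε / 8) := by
    refine le_of_tendsto hd.tendsto_sum_nat (eventually_atTop.2 ⟨N, fun M hM => ?_⟩)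
    have e1 : ∑ k ∈ Finset.range M, |((x - y n : L1) : ∀ _ : ℕ, ℝ) k| =
        ∑ k ∈ Finset.range N, |((x - y n : L1) : ∀ _ : ℕ, ℝ) k| +
        ∑ k ∈ Finset.range M \ Finset.range N, |((x - y n : L1) : ∀ _ : ℕ, ℝ) k| := by
      rw [add_comm, Finset.sum_sdiff (Finset.range_subset_range.2 hM)]
    have e2 : ∑ k ∈ Finset.range M \ Finset.range N, |((x - y n : L1) : ∀ _ : ℕ, ℝ) k| ≤
        ∑ k ∈ Finset.range M \ Finset.range N, |(x : ∀ _ : ℕ, ℝ) k| +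
        ∑ k ∈ Finset.range M \ Finset.range N, |(y n : ∀ _ : ℕ, ℝ) k| := by
      rw [← Finset.sum_add_distrib]
      refine Finset.sum_le_sum fun k _ => ?_
      have : ((x - y n : L1) : ∀ _ : ℕ, ℝ) k = (x : ∀ _ : ℕ, ℝ) k - (y n : ∀ _ : ℕ, ℝ) k := rfl
      rw [this]
      exact abs_sub _ _
    have e3 : ∑ k ∈ Finset.range M \ Finset.range N, |(x : ∀ _ : ℕ, ℝ) k| +
        ∑ k ∈ Finset.range N, |(x : ∀ _ : ℕ, ℝ) k| ≤ ‖x‖ := by
      rw [Finset.sum_sdiff (Finset.range_subset_range.2 hM)]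
      exact sum_le_hasSum _ (fun _ _ => abs_nonneg _) hx
    have e4 : ∑ k ∈ Finset.range M \ Finset.range N, |(y n : ∀ _ : ℕ, ℝ) k| +
        ∑ k ∈ Finset.range N, |(y n : ∀ _ : ℕ, ℝ) k| ≤ ‖y n‖ := by
      rw [Finset.sum_sdiff (Finset.range_subset_range.2 hM)]
      exact sum_le_hasSum _ (fun _ _ => abs_nonneg _) hy
    have e5 : ∑ k ∈ Finset.range N, |(x : ∀ _ : ℕ, ℝ) k| ≤ ∑ k ∈ Finset.range N, |(y n : ∀ _ : ℕ, ℝ) k| +
        ∑ k ∈ Finset.range N, |(x : ∀ _ : ℕ, ℝ) k - (y n : ∀ _ : ℕ, ℝ) k| := by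
      rw [← Finset.sum_add_distrib]
      refine Finset.sum_le_sum fun k _ => ?_
      have := abs_sub_abs_le_abs_sub ((x : ∀ _ : ℕ, ℝ) k) ((y n : ∀ _ : ℕ, ℝ) k)
      linarith
    have e6 : ∑ k ∈ Finset.range N, |((x - y n : L1) : ∀ _ : ℕ, ℝ) k| =
        ∑ k ∈ Finset.range N, |(x : ∀ _ : ℕ, ℝ) k - (y n : ∀ _ : ℕ, ℝ) k| := rfl
    rw [e1, e6]
    linarith
  linarith

end Q99.NP
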